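import Pool.Agent.L7h41.Circ.Sound
import Pool.Agent.L7h41.Circ.Cut

/-!
# A cyclically 4-edge-connected cubic graph without a minimum genus embedding with circuit faces

An embedding of a connected graph in a closed oriented surface is given by its rotation system.
There is a cyclically 4-edge-connected simple cubic graph with 16 vertices, embeddable in the torus,
which has no rotation system of minimum genus all of whose faces are bounded by circuits.
-/

set_option autoImplicit false

namespace Pool.Agent.Results.MP_f8ee93_co.CyclicallyFourConnected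

open Equiv

variable {V : Type} (G : SimpleGraph V)

/-- A rotation system of `G`: for every vertex `v` a cyclic order of the darts (directed edges) with
starting point `v`; `σ d` is the dart which follows `d`. -/
structure IsRotation (σ : Perm G.Dart) : Prop where
  fst : ∀ d, (σ d).fst = d.fst
  cyclic : ∀ d d' : G.Dart, d.fst = d'.fst → σ.SameCycle d d'

/-- the reversal of darts -/
def reversal : Perm G.Dart := ⟨SimpleGraph.Dart.symm, SimpleGraph.Dart.symm,
  SimpleGraph.Dart.symm_symm, SimpleGraph.Dart.symm_symm⟩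

/-- The face permutation: `facePerm σ d = σ d.symm` follows `d` on the boundary walk of the face on one
side of `d`.  The faces are its orbits. -/
def facePerm (σ : Perm G.Dart) : Perm G.Dart := σ * reversal G

/-- the number of faces -/
noncomputable def numFaces (σ : Perm G.Dart) : ℕ :=
  Nat.card (Quotient (Perm.SameCycle.setoid (facePerm G σ)))

/-- The rotation system `σ` describes an embedding in the closed orientable surface of genus `g`:
vertices - edges + faces = 2 - 2g. -/
def OnSurface (σ : Perm G.Dart) (g : ℕ) : Prop :=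
  IsRotation G σ ∧ (Nat.card V : ℤ) - (Nat.card G.edgeSet : ℤ) + (numFaces G σ : ℤ) = 2 - 2 * (g : ℤ)

/-- the genus of the connected graph `G` -/
noncomputable def genus : ℕ := sInf {g | ∃ σ, OnSurface G σ g}

/-- Every face is bounded by a circuit: no boundary walk of a face traverses an edge twice. -/
def CircuitFaces (σ : Perm G.Dart) : Prop := ∀ d, ¬ (facePerm G σ).SameCycle d d.symm

/-- `G` is cyclically 4-edge-connected: after the deletion of at most three edges no two different
components contain a cycle. -/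
def CyclicallyFourEdgeConnected : Prop :=
  ∀ F : Set (Sym2 V), F.Finite → F.ncard ≤ 3 →
    ∀ (u v : V) (p : (G.deleteEdges F).Walk u u) (q : (G.deleteEdges F).Walk v v),
      p.IsCycle → q.IsCycle → (G.deleteEdges F).Reachable u v

/-! ### The graph -/

open Pool.Agent.L7h41.Circ

/-- the rows of the adjacency matrix, read as binary numbers -/
def row : Fin 16 → ℕ := ![14, 49, 193, 289, 386, 522, 3076, 4116, 8216, 17440, 4672, 24640, 33920, 35072, 35328, 28672]

/-- the graph -/
def gr : SimpleGraph (Fin 16) where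
  Adj u v := (row u).testBit v = true
  symm := ⟨by decide +kernel⟩
  loopless := ⟨by decide +kernel⟩

instance : DecidableRel gr.Adj := fun u v => inferInstanceAs (Decidable ((row u).testBit v = true))

/-- the starting point of a dart -/
def src (k : Fin 48) : Fin 16 := ⟨k / 3, by omega⟩
/-- the end of a dart -/
def tgt (k : Fin 48) : Fin 16 := Fin.ofNat 16 (g4 VT k)

theorem adj_k : ∀ k : Fin 48, gr.Adj (src k) (tgt k) := by decide +kernel

/-- the darts of the graph -/
def mk (k : Fin 48) : gr.Dart := ⟨(src k, tgt k), adj_k k⟩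

theorem mk_inj' : ∀ k k' : Fin 48, src k = src k' → tgt k = tgt k' → k = k' := by decide +kernel

theorem mk_surj' : ∀ u v : Fin 16, gr.Adj u v → ∃ k : Fin 48, src k = u ∧ tgt k = v := by
  decide +kernel

theorem mk_bij : Function.Bijective mk := by
  constructor
  · intro k k' h
    have h' := congrArg SimpleGraph.Dart.toProd h
    exact mk_inj' k k' (congrArg Prod.fst h') (congrArg Prod.snd h')
  · rintro ⟨⟨u, v⟩, h⟩
    obtain ⟨k, h1, h2⟩ := mk_surj' u v h
    refine ⟨k, ?_⟩
    apply SimpleGraph.Dart.ext
    exact Prod.ext h1 h2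

/-- the numbering of the darts -/
noncomputable def e : Fin 48 ≃ gr.Dart := Equiv.ofBijective mk mk_bij

theorem e_apply (k : Fin 48) : e k = mk k := rfl

theorem R_lt : ∀ k : Fin 48, g6 R k < 48 := by decide +kernel

/-- the reversed dart -/
def rv (k : Fin 48) : Fin 48 := ⟨g6 R k, R_lt k⟩

theorem rv_spec : ∀ k : Fin 48, src (rv k) = tgt k ∧ tgt (rv k) = src k := by decide +kernel

theorem mk_rv (k : Fin 48) : mk (rv k) = (mk k).symm := by
  apply SimpleGraph.Dart.ext
  exact Prod.ext (rv_spec k).1 (rv_spec k).2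

theorem table_spec : ∀ k : Fin 48, g4 VT k = (rv k : ℕ) / 3 ∧
    g6 A (2 * k) = 3 * ((rv k : ℕ) / 3) + ((rv k : ℕ) % 3 + 1) % 3 ∧
    g6 A (2 * k + 1) = 3 * ((rv k : ℕ) / 3) + ((rv k : ℕ) % 3 + 2) % 3 := by decide +kernel

/-- the next dart around the starting point, for the two cyclic orders -/
def nxt (b : Bool) (k : ℕ) : ℕ := 3 * (k / 3) + (k % 3 + (if b then 2 else 1)) % 3

theorem phi_eq (m : ℕ) (k : Fin 48) :
    phi m k = nxt (m.testBit ((rv k : ℕ) / 3)) (rv k : ℕ) := by
  obtain ⟨h1, h2, h3⟩ := table_spec k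
  have e1 : phi m k = g6 A ((k + k) + bt (g4 VT k) m) := rfl
  rw [e1, bt_le, h1, nxt]
  cases m.testBit ((rv k : ℕ) / 3)
  · rw [if_neg (by decide), if_neg (by decide), ← h2]
    congr 1
    omega
  · rw [if_pos rfl, if_pos rfl, ← h3]
    congr 1
    omega

theorem other : ∀ k : Fin 48, ∃ k' : Fin 48, k' ≠ k ∧ src k' = src k := by decide +kernel

/-- A rotation system is one of the two cyclic orders at each vertex. -/
theorem rotation_code {σ : Perm gr.Dart} (hσ : IsRotation gr σ) :
    ∃ m < 65536, ∀ k : Fin 48, ((e.symm (σ (e k)) : Fin 48) : ℕ) = nxt (m.testBit ((k : ℕ) / 3)) k := by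
  let τ : Perm (Fin 48) := e.trans (σ.trans e.symm)
  have hτ : ∀ k, e (τ k) = σ (e k) := fun k => e.apply_symm_apply _
  have hdiv : ∀ k : Fin 48, ((τ k : Fin 48) : ℕ) / 3 = (k : ℕ) / 3 := by
    intro k
    have h1 := hσ.fst (e k)
    rw [← hτ] at h1
    have h2 : src (τ k) = src k := h1
    exact congrArg Fin.val h2
  have hfix : ∀ k : Fin 48, τ k ≠ k := by
    intro k hk
    obtain ⟨k', h1, h2⟩ := other k
    have h3 := hσ.cyclic (e k) (e k') h2.symm
    have h4 : τ.SameCycle k k' := by
      rw [sameCycle_congr e (σ := τ) (τ := σ) hτ]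
      exact h3
    obtain ⟨n, hn⟩ := h4
    have h5 : (τ ^ n) k = k := by
      exact Perm.zpow_apply_eq_self_of_apply_eq_self hk n
    rw [h5] at hn
    exact h1 hn.symm
  let f : ℕ → ℕ := fun k => if h : k < 48 then ((τ ⟨k, h⟩ : Fin 48) : ℕ) else 0
  have hf : ∀ k : Fin 48, ((τ k : Fin 48) : ℕ) = f k := by
    intro k
    simp only [f]
    rw [dif_pos k.2]
  have hf1 : ∀ k < 48, f k / 3 = k / 3 ∧ f k ≠ k := by
    intro k hk
    have h1 := hdiv ⟨k, hk⟩
    have h2 := hfix ⟨k, hk⟩
    rw [hf] at h1
    refine ⟨h1, ?_⟩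
    intro h3
    apply h2
    apply Fin.ext
    rw [hf]
    exact h3
  have hf2 : ∀ k < 48, ∀ k' < 48, f k = f k' → k = k' := by
    intro k hk k' hk' h
    have := hf ⟨k, hk⟩
    have h' := hf ⟨k', hk'⟩
    have h3 : τ ⟨k, hk⟩ = τ ⟨k', hk'⟩ := by
      apply Fin.ext
      rw [this, h']
      exact h
    have := τ.injective h3
    exact congrArg Fin.val this
  refine ⟨Nat.ofBits (fun v : Fin 16 => decide (f (3 * v) = 3 * v + 2)), Nat.ofBits_lt_two_pow _, ?_⟩
  intro k
  change ((τ k : Fin 48) : ℕ) = _
  rw [hf, Nat.testBit_ofBits_lt _ _ (by omega : (k : ℕ) / 3 < 16)]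
  have hk := k.2
  change f (k : ℕ) = nxt (decide (f (3 * ((k : ℕ) / 3)) = 3 * ((k : ℕ) / 3) + 2)) (k : ℕ)
  generalize (k : ℕ) = k at hk
  obtain ⟨v, i, hi, rfl⟩ : ∃ v i, i < 3 ∧ k = 3 * v + i := ⟨k / 3, k % 3, by omega, by omega⟩
  have hv : v < 16 := by omega
  have hkv : (3 * v + i) / 3 = v := by omega
  have hki : (3 * v + i) % 3 = i := by omega
  simp only [nxt, hkv, hki]
  have a0 := hf1 (3 * v) (by omega)
  have a1 := hf1 (3 * v + 1) (by omega)
  have a2 := hf1 (3 * v + 2) (by omega)
  have b1 := hf2 (3 * v) (by omega) (3 * v + 1) (by omega)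
  have b2 := hf2 (3 * v) (by omega) (3 * v + 2) (by omega)
  have b3 := hf2 (3 * v + 1) (by omega) (3 * v + 2) (by omega)
  by_cases hc : f (3 * v) = 3 * v + 2
  · rw [if_pos (by simpa using hc)]
    interval_cases i <;> try simp only [Nat.add_zero]
    all_goals omega
  · rw [if_neg (by simpa using hc)]
    interval_cases i <;> try simp only [Nat.add_zero]
    all_goals omega

/-- A rotation system with circuit faces has at most seven faces. -/
theorem circuit_few {σ : Perm gr.Dart} (hσ : IsRotation gr σ) (hc : CircuitFaces gr σ) :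
    numFaces gr σ ≤ 7 := by
  obtain ⟨m, hm, hk⟩ := rotation_code hσ
  let Φ : Perm (Fin 48) := e.trans ((facePerm gr σ).trans e.symm)
  have hΦ' : ∀ k, e (Φ k) = facePerm gr σ (e k) := fun k => e.apply_symm_apply _
  have hΦ : ∀ k : Fin 48, ((Φ k : Fin 48) : ℕ) = phi m k := by
    intro k
    rw [phi_eq, ← hk]
    change ((e.symm (facePerm gr σ (e k)) : Fin 48) : ℕ) = _
    have : facePerm gr σ (e k) = σ (e (rv k)) := by
      change σ ((mk k).symm) = σ (mk (rv k))
      rw [mk_rv]
    rw [this]
  rcases main_sound hΦ R_lt hm with ⟨k, k', h1, h2⟩ | h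
  · exfalso
    apply hc (e k)
    have h3 : k' = rv k := Fin.ext h1
    rw [sameCycle_congr e (σ := Φ) (τ := facePerm gr σ) hΦ', h3] at h2
    have h4 : e (rv k) = (e k).symm := mk_rv k
    rw [h4] at h2
    exact h2
  · have h5 : orb Φ = numFaces gr σ := orb_congr e hΦ'
    rw [← h5]
    exact h

/-! ### A toroidal embedding -/

/-- the rotation at a vertex -/
def rb (v : ℕ) : Bool := (23838 : ℕ).testBit v

def t0 (k : Fin 48) : Fin 48 := Fin.ofNat 48 (nxt (rb ((k : ℕ) / 3)) k)
def t1 (k : Fin 48) : Fin 48 := Fin.ofNat 48 (nxt (!(rb ((k : ℕ) / 3))) k)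

/-- the rotation system on the numbers of the darts -/
def tau : Perm (Fin 48) := ⟨t0, t1, by unfold Function.LeftInverse; decide +kernel,
  by unfold Function.RightInverse Function.LeftInverse; decide +kernel⟩

/-- the rotation system -/
noncomputable def sig : Perm gr.Dart := e.symm.trans (tau.trans e)

theorem sig_e (k : Fin 48) : sig (e k) = e (tau k) := by
  change e (tau (e.symm (e k))) = _
  rw [e.symm_apply_apply]

theorem tau_src : ∀ k : Fin 48, src (tau k) = src k := by decide +kernel

theorem tau_cyc : ∀ k k' : Fin 48, src k = src k' → k' = k ∨ k' = tau k ∨ k' = tau (tau k) := by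
  decide +kernel

theorem sig_rotation : IsRotation gr sig := by
  constructor
  · intro d
    obtain ⟨k, rfl⟩ := e.surjective d
    rw [sig_e]
    exact tau_src k
  · intro d d' h
    obtain ⟨k, rfl⟩ := e.surjective d
    obtain ⟨k', rfl⟩ := e.surjective d'
    rw [← sameCycle_congr e (σ := tau) (τ := sig) (fun a => (sig_e a).symm)]
    rcases tau_cyc k k' h with h | h | h
    · rw [h]
    · rw [h]
      exact Perm.sameCycle_apply_right.2 (Perm.SameCycle.refl _ _)
    · rw [h]
      exact Perm.sameCycle_apply_right.2 (Perm.sameCycle_apply_right.2 (Perm.SameCycle.refl _ _))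

/-- the face permutation on the numbers of the darts -/
def psi : Perm (Fin 48) := ⟨fun k => tau (rv k), fun k => rv (tau.symm k),
  by unfold Function.LeftInverse; decide +kernel,
  by unfold Function.RightInverse Function.LeftInverse; decide +kernel⟩

theorem psi_e (k : Fin 48) : e (psi k) = facePerm gr sig (e k) := by
  change e (tau (rv k)) = sig ((mk k).symm)
  rw [← mk_rv, ← e_apply, sig_e]

/-- the numbers of the faces -/
def lab (k : Fin 48) : Fin 8 := Fin.ofNat 8 (g4 2878644505280852755421584196359598047255198826067275223568 k)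

theorem lab_psi : ∀ k : Fin 48, lab (psi k) = lab k := by decide +kernel

theorem lab_surj : ∀ i : Fin 8, ∃ k : Fin 48, lab k = i := by decide +kernel

theorem psi_phi : ∀ k : Fin 48, ((psi k : Fin 48) : ℕ) = phi 23838 k := by decide +kernel

theorem cnt_eq : cnt 23838 48 = 8 := by decide +kernel

theorem faces_sig : numFaces gr sig = 8 := by
  have h : orb psi = numFaces gr sig := orb_congr e psi_e
  rw [← h]
  apply le_antisymm
  · have := orb_le (m := 23838) (Φ := psi) psi_phi
    rw [cnt_eq] at this
    exact this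
  · have := orb_ge psi lab lab_psi lab_surj
    rw [Fintype.card_fin] at this
    exact this

theorem card_edges : Nat.card gr.edgeSet = 24 := by
  rw [Nat.card_eq_fintype_card, ← SimpleGraph.edgeFinset_card]
  have h2 := SimpleGraph.sum_degrees_eq_twice_card_edges gr
  have h3 : ∑ v, gr.degree v = 48 := by decide +kernel
  omega

theorem sig_torus : OnSurface gr sig 1 := by
  refine ⟨sig_rotation, ?_⟩
  rw [card_edges, faces_sig, Nat.card_eq_fintype_card, Fintype.card_fin]
  norm_num

/-! ### Connectivity -/

/-- the neighbours with smaller number -/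
def low (i : ℕ) : List ℕ := if h : i < 16 then (![[], [0], [0], [0], [1], [1, 3], [2], [2, 4], [3, 4], [5], [6, 9], [6], [7, 10], [8, 11], [9, 11], [12, 13, 14]] : Fin 16 → List ℕ) ⟨i, h⟩ else []

theorem low_lt (i : ℕ) : ∀ j ∈ low i, j < i := by
  intro j hj
  rw [low] at hj
  split_ifs at hj with h
  · have key : ∀ i : Fin 16, ∀ j ∈ (![[], [0], [0], [0], [1], [1, 3], [2], [2, 4], [3, 4], [5], [6, 9], [6], [7, 10], [8, 11], [9, 11], [12, 13, 14]] : Fin 16 → List ℕ) i, j < (i : ℕ) := by
      decide +kernel
    exact key ⟨i, h⟩ j hj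
  · exact absurd hj (by simp)

theorem low_nodup : ∀ i : Fin 16, (low i).Nodup := by decide +kernel

theorem low_adj : ∀ i : Fin 16, ∀ j : Fin 16, (j : ℕ) ∈ low i → gr.Adj i j := by decide +kernel

set_option maxRecDepth 100000 in
theorem srch_eq : srch low 16 0 0 0 0 = true := by decide +kernel

/-- Every set of vertices is small or large or has at least four edges to its complement. -/
theorem cut_bound (χ : ℕ → Bool) :
    4 ≤ cutOf low χ 16 ∨ szOf χ 16 = 0 ∨ szOf χ 16 = 16 ∨
      (3 ≤ cutOf low χ 16 ∧ (szOf χ 16 = 1 ∨ szOf χ 16 + 1 = 16)) := by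
  have := srch_sound low low_lt χ 16 0 (by
    have h1 : code χ 0 = 0 := rfl
    have h2 : cutOf low χ 0 = 0 := rfl
    have h3 : szOf χ 0 = 0 := rfl
    rw [h1, h2, h3]
    exact srch_eq)
  simpa using this

/-- the number of edges between a set of vertices and its complement is at most the size of any set of
edges containing them -/
theorem cut_le (χ : ℕ → Bool) (F : Set (Sym2 (Fin 16))) (hF : F.Finite)
    (h : ∀ u v : Fin 16, gr.Adj u v → χ u ≠ χ v → s(u, v) ∈ F) : cutOf low χ 16 ≤ F.ncard := by
  classical
  have h1 : cutOf low χ 16 = ((Finset.univ : Finset (Fin 16 × Fin 16)).filter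
      (fun p : Fin 16 × Fin 16 =>
        (p.2 : ℕ) ∈ low (p.1 : ℕ) ∧ χ (p.2 : ℕ) ≠ χ (p.1 : ℕ))).card := by
    have key : ∀ i : Fin 16, (low i).countP (fun j => χ j != χ i) =
        ((Finset.univ : Finset (Fin 16)).filter
          (fun j : Fin 16 => (j : ℕ) ∈ low (i : ℕ) ∧ χ (j : ℕ) ≠ χ (i : ℕ))).card := by
      intro i
      have e0 : (low i).countP (fun j => χ j != χ i) =
          ((low i).filter (fun j => χ j != χ i)).length := by
        rw [List.countP_eq_length_filter]
      rw [e0, ← List.toFinset_card_of_nodup ((low_nodup i).filter _)]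
      symm
      refine Finset.card_bij (fun (j : Fin 16) _ => (j : ℕ)) ?_ ?_ ?_
      · intro j hj
        rw [Finset.mem_filter] at hj
        rw [List.mem_toFinset, List.mem_filter]
        exact ⟨hj.2.1, by simpa using hj.2.2⟩
      · intro a _ b _ hab
        exact Fin.ext hab
      · intro b hb
        rw [List.mem_toFinset, List.mem_filter] at hb
        have hb16 : b < 16 := by
          have := low_lt i b hb.1
          omega
        refine ⟨⟨b, hb16⟩, ?_, rfl⟩
        rw [Finset.mem_filter]
        exact ⟨Finset.mem_univ _, hb.1, by simpa using hb.2⟩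
    rw [cutOf, Finset.sum_range, Finset.card_filter, ← Finset.univ_product_univ,
      Finset.sum_product]
    apply Finset.sum_congr rfl
    intro i _
    rw [key i, Finset.card_filter]
  rw [h1, Set.ncard_eq_toFinset_card F hF]
  refine Finset.card_le_card_of_injOn (fun p => s(p.1, p.2)) ?_ ?_
  · intro p hp
    rw [Finset.mem_coe, Finset.mem_filter] at hp
    rw [Finset.mem_coe, Set.Finite.mem_toFinset]
    exact h p.1 p.2 (low_adj _ _ hp.2.1) (fun hh => hp.2.2 hh.symm)
  · intro p hp q hq hpq
    rw [Finset.mem_coe, Finset.mem_filter] at hp hq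
    have a1 := low_lt p.1 p.2 hp.2.1
    have a2 := low_lt q.1 q.2 hq.2.1
    have h2 : s(p.1, p.2) = s(q.1, q.2) := hpq
    rw [Sym2.eq_iff] at h2
    rcases h2 with ⟨h3, h4⟩ | ⟨h3, h4⟩
    · exact Prod.ext h3 h4
    · rw [h3, h4] at a1
      omega

/-- the next vertex on the way to the vertex `0` -/
def par : Fin 16 → Fin 16 := ![0, 0, 0, 0, 1, 1, 2, 2, 3, 5, 6, 6, 7, 8, 9, 12]
/-- the distance to the vertex `0` -/
def dep : Fin 16 → ℕ := ![0, 1, 1, 1, 2, 2, 2, 2, 2, 3, 3, 3, 3, 3, 4, 4]

theorem par_spec : ∀ v : Fin 16, v = 0 ∨ (gr.Adj v (par v) ∧ dep (par v) < dep v) := by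
  decide +kernel

theorem reach (n : ℕ) : ∀ v : Fin 16, dep v ≤ n → gr.Reachable v 0 := by
  induction n with
  | zero =>
    intro v hv
    rcases par_spec v with h | h
    · rw [h]
    · omega
  | succ n ih =>
    intro v hv
    rcases par_spec v with h | ⟨h1, h2⟩
    · rw [h]
    · exact h1.reachable.trans (ih _ (by omega))

theorem connected : gr.Connected :=
  { preconnected := fun u v => (reach _ u le_rfl).trans (reach _ v le_rfl).symm
    nonempty := ⟨0⟩ }

open Classical in
/-- the set of the vertices reachable from `u` after the deletion of `F` -/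
noncomputable def chi (F : Set (Sym2 (Fin 16))) (u : Fin 16) (i : ℕ) : Bool :=
  if h : i < 16 then decide ((gr.deleteEdges F).Reachable u ⟨i, h⟩) else false

theorem chi_spec (F : Set (Sym2 (Fin 16))) (u v : Fin 16) :
    chi F u v = true ↔ (gr.deleteEdges F).Reachable u v := by
  classical
  rw [chi, dif_pos v.2]
  exact decide_eq_true_iff

theorem chi_cut (F : Set (Sym2 (Fin 16))) (hF : F.Finite) (u : Fin 16) :
    cutOf low (chi F u) 16 ≤ F.ncard := by
  apply cut_le _ _ hF
  intro x y hxy hne
  by_contra hnot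
  apply hne
  have hadj : (gr.deleteEdges F).Adj x y := by
    rw [SimpleGraph.deleteEdges_adj]
    exact ⟨hxy, hnot⟩
  have key : (gr.deleteEdges F).Reachable u x ↔ (gr.deleteEdges F).Reachable u y :=
    ⟨fun h => h.trans hadj.reachable, fun h => h.trans hadj.symm.reachable⟩
  rw [← chi_spec, ← chi_spec] at key
  exact Bool.eq_iff_iff.2 key

theorem size_eq (F : Set (Sym2 (Fin 16))) (u : Fin 16) :
    szOf (chi F u) 16 = Nat.card {v : Fin 16 // (gr.deleteEdges F).Reachable u v} := by
  classical
  rw [Nat.card_eq_fintype_card, Fintype.card_subtype, szOf]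
  symm
  refine Finset.card_bij (fun (v : Fin 16) _ => (v : ℕ)) ?_ ?_ ?_
  · intro v hv
    rw [Finset.mem_filter] at hv
    rw [Finset.mem_filter, Finset.mem_range]
    exact ⟨v.2, (chi_spec F u v).2 hv.2⟩
  · intro a _ b _ hab
    exact Fin.ext hab
  · intro b hb
    rw [Finset.mem_filter, Finset.mem_range] at hb
    exact ⟨⟨b, hb.1⟩, by
      rw [Finset.mem_filter]
      exact ⟨Finset.mem_univ _, (chi_spec F u ⟨b, hb.1⟩).1 hb.2⟩, rfl⟩

theorem bridgeless (ed : Sym2 (Fin 16)) (hed : ed ∈ gr.edgeSet) : ¬ gr.IsBridge ed := by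
  intro hb
  induction ed with
  | h u v =>
    rw [SimpleGraph.isBridge_iff] at hb
    have h1 := chi_cut {s(u, v)} (Set.finite_singleton _) u
    rw [Set.ncard_singleton] at h1
    have h2 := cut_bound (chi {s(u, v)} u)
    have h3 := size_eq {s(u, v)} u
    have hnot : ¬ (gr.deleteEdges {s(u, v)}).Reachable u v 
      := hb
    have hpos : 0 < Nat.card {x : Fin 16 // (gr.deleteEdges {s(u, v)}).Reachable u x} :=
      Nat.card_pos_iff.2 ⟨⟨⟨u, SimpleGraph.Reachable.refl _⟩⟩, inferInstance⟩
    have hlt : Nat.card {x : Fin 16 // (gr.deleteEdges {s(u, v)}).Reachable u x} < 16 := by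
      classical
      have : Nat.card {x : Fin 16 // (gr.deleteEdges {s(u, v)}).Reachable u x} <
          Nat.card (Fin 16) := by
        rw [Nat.card_eq_fintype_card, Nat.card_eq_fintype_card]
        exact Fintype.card_subtype_lt (x := v) hnot
      rwa [Nat.card_fin] at this
    omega

/-- a set of vertices containing a cycle has at least three elements -/
theorem cycle_card {F : Set (Sym2 (Fin 16))} {u : Fin 16} (p : (gr.deleteEdges F).Walk u u)
    (hp : p.IsCycle) (P : Fin 16 → Prop) (h : ∀ v, (gr.deleteEdges F).Reachable u v → P v) :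
    3 ≤ Nat.card {v : Fin 16 // P v} := by
  classical
  have h1 := hp.three_le_length
  have h2 : p.support.tail.length = p.length := by
    rw [List.length_tail, SimpleGraph.Walk.length_support]
    omega
  have h3 := hp.support_nodup
  rw [Nat.card_eq_fintype_card, Fintype.card_subtype]
  calc 3 ≤ p.support.tail.toFinset.card := by
        rw [List.toFinset_card_of_nodup h3, h2]; exact h1
    _ ≤ _ := by
        apply Finset.card_le_card
        intro x hx
        rw [List.mem_toFinset] at hx
        rw [Finset.mem_filter]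
        exact ⟨Finset.mem_univ _, h x ⟨p.takeUntil x (List.mem_of_mem_tail hx)⟩⟩

theorem cyclic4 : CyclicallyFourEdgeConnected gr := by
  classical
  intro F hF hF3 u v p q hp hq
  by_contra hnot
  have h1 := chi_cut F hF u
  have h2 := cut_bound (chi F u)
  have h3 := size_eq F u
  have h4 := cycle_card p hp (fun x => (gr.deleteEdges F).Reachable u x) (fun x hx => hx)
  have h5 := cycle_card q hq (fun x => ¬ (gr.deleteEdges F).Reachable u x)
    (fun x hx hux => hnot (hux.trans hx.symm))
  have h6 : Nat.card {x : Fin 16 // (gr.deleteEdges F).Reachable u x} +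
      Nat.card {x : Fin 16 // ¬ (gr.deleteEdges F).Reachable u x} = 16 := by
    rw [Nat.card_eq_fintype_card, Nat.card_eq_fintype_card]
    have := Fintype.card_subtype_compl (fun x : Fin 16 => (gr.deleteEdges F).Reachable u x)
    have h7 := Fintype.card_subtype_le (fun x : Fin 16 => (gr.deleteEdges F).Reachable u x)
    rw [Fintype.card_fin] at this h7
    omega
  omega

theorem regular (v : Fin 16) : (gr.neighborSet v).ncard = 3 := by
  have h : ∀ v : Fin 16, gr.degree v = 3 := by decide +kernel
  rw [Set.ncard_eq_toFinset_card', ← SimpleGraph.neighborFinset, SimpleGraph.card_neighborFinset_eq_degree]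
  exact h v

/-- **Q1 of MP_f8ee93_co is false, even for cyclically 4-edge-connected cubic graphs.**  There is a
connected, bridgeless, cyclically 4-edge-connected simple cubic graph `G` on 16 vertices such that
every embedding of `G` in the closed orientable surface whose genus is the genus of `G` has a face
whose boundary walk is not a circuit (it traverses some edge twice). -/
theorem result : ∃ G : SimpleGraph (Fin 16), G.Connected ∧ (∀ v, (G.neighborSet v).ncard = 3) ∧
    (∀ ed ∈ G.edgeSet, ¬ G.IsBridge ed) ∧ CyclicallyFourEdgeConnected G ∧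
    (∃ σ, OnSurface G σ (genus G)) ∧ genus G ≤ 1 ∧
    ∀ σ, OnSurface G σ (genus G) → ¬ CircuitFaces G σ := by
  have hne : {g | ∃ σ, OnSurface gr σ g}.Nonempty := ⟨1, sig, sig_torus⟩
  have hg : genus gr ≤ 1 := Nat.sInf_le ⟨sig, sig_torus⟩
  refine ⟨gr, connected, regular, bridgeless, cyclic4, Nat.sInf_mem hne, hg, ?_⟩
  intro σ hσ hc
  have h1 := circuit_few hσ.1 hc
  have h2 := hσ.2
  rw [card_edges, Nat.card_eq_fintype_card, Fintype.card_fin] at h2
  push_cast at h2
  omega

end Pool.Agent.Results.MP_f8ee93_co.CyclicallyFourConnected
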